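import Pool.Agent.W133.DQ.StC

set_option autoImplicit false

open Pool.Agent.W133.DQ

namespace Pool.Agent.W371.DQ

theorem eq_of_bdd {x y C : ℝ} (h : ∀ n : ℕ, |(n : ℝ) * x - n * y| ≤ C) : x = y := by
  by_contra hne
  have hpos : 0 < |x - y| := abs_pos.mpr (sub_ne_zero.mpr hne)
  obtain ⟨n, hn⟩ := exists_nat_gt (C / |x - y|)
  have h1 := h n
  rw [← mul_sub, abs_mul, abs_of_nonneg (Nat.cast_nonneg n)] at h1
  rw [div_lt_iff₀ hpos] at hn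
  linarith

section
variable {Γ : Type} [Group Γ] {H : Subgroup Γ} {μ : Γ → ℝ}

theorem hqm_nat (h : HQMOn H μ) {a : Γ} (ha : a ∈ H) (n : ℕ) : μ (a ^ n) = n * μ a := by
  have := h.2 a ha n
  rwa [zpow_natCast, Int.cast_natCast] at this

theorem hqm_one (h : HQMOn H μ) : μ 1 = 0 := by
  have := hqm_nat h H.one_mem 0
  simpa using this

theorem hqm_inv (h : HQMOn H μ) {a : Γ} (ha : a ∈ H) : μ a⁻¹ = - μ a := by
  have := h.2 a ha (-1)
  simpa using this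

theorem hqm_conj (h : HQMOn H μ) {a b : Γ} (ha : a ∈ H) (hb : b ∈ H) :
    μ (b * a * b⁻¹) = μ a := by
  obtain ⟨D, hD⟩ := h.1
  refine eq_of_bdd (C := 2 * D + |μ b| + |μ b⁻¹|) fun n => ?_
  have hc : b * a * b⁻¹ ∈ H := H.mul_mem (H.mul_mem hb ha) (H.inv_mem hb)
  rw [← hqm_nat h hc n, ← hqm_nat h ha n, conj_pow]
  have han : a ^ n ∈ H := H.pow_mem ha n
  have h1 := hD (b * a ^ n) (H.mul_mem hb han) b⁻¹ (H.inv_mem hb)
  have h2 := hD b hb (a ^ n) han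
  rw [abs_le] at *
  have h3 := neg_abs_le (μ b)
  have h4 := le_abs_self (μ b)
  have h5 := neg_abs_le (μ b⁻¹)
  have h6 := le_abs_self (μ b⁻¹)
  constructor <;> linarith [h1.1, h1.2, h2.1, h2.2]

theorem hqm_comm (h : HQMOn H μ) {a b : Γ} (ha : a ∈ H) (hb : b ∈ H) (hc : a * b = b * a) :
    μ (a * b) = μ a + μ b := by
  obtain ⟨D, hD⟩ := h.1
  refine eq_of_bdd (C := D) fun n => ?_
  have hcc : Commute a b := hc
  rw [← hqm_nat h (H.mul_mem ha hb) n, mul_add, ← hqm_nat h ha n, ← hqm_nat h hb n, hcc.mul_pow,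
    ← sub_sub]
  exact hD _ (H.pow_mem ha n) _ (H.pow_mem hb n)

theorem hqm_bdd (h : HQMOn H μ) {K : Subgroup Γ} {D : ℝ} (hK : K ≤ H)
    (hb : ∀ a ∈ K, |μ a| ≤ D) {a : Γ} (ha : a ∈ K) : μ a = 0 := by
  refine eq_of_bdd (C := D) fun n => ?_
  rw [mul_zero, sub_zero, ← hqm_nat h (hK ha) n]
  exact hb _ (K.pow_mem ha n)

end

theorem a1 : S_A1 := by
  intro Γ _ H μ h
  exact ⟨fun a ha b hb => hqm_conj h ha hb, fun a ha b hb hc => hqm_comm h ha hb hc, hqm_one h,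
    fun a ha => hqm_inv h ha, fun K D hK hb a ha => hqm_bdd h hK hb ha⟩

/-- the product of the conjugates. -/
def PP {Γ : Type} [Group Γ] (g a : Γ) : ℕ → Γ
  | 0 => 1
  | n + 1 => PP g a n * (g ^ n * a * (g ^ n)⁻¹)

theorem a2 : S_A2 := by
  intro Γ _ H K μ g h hK hg hc
  have key : ∀ a ∈ K, ∀ b ∈ K, ∀ i n : ℕ, i < n →
      Commute (g ^ n * a * (g ^ n)⁻¹) (g ^ i * b * (g ^ i)⁻¹) := by
    intro a ha b hb i n hin
    obtain ⟨k, hk, rfl⟩ : ∃ k, 1 ≤ k ∧ n = i + k := ⟨n - i, by omega, by omega⟩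
    have h1 := hc k hk a ha b hb
    have h2 : g ^ (i + k) * a * (g ^ (i + k))⁻¹ =
        g ^ i * (g ^ k * a * (g ^ k)⁻¹) * (g ^ i)⁻¹ := by
      rw [pow_add]; group
    rw [h2]
    have h3 : (g ^ k * a * (g ^ k)⁻¹) * b = b * (g ^ k * a * (g ^ k)⁻¹) := h1
    show g ^ i * (g ^ k * a * (g ^ k)⁻¹) * (g ^ i)⁻¹ * (g ^ i * b * (g ^ i)⁻¹) =
      g ^ i * b * (g ^ i)⁻¹ * (g ^ i * (g ^ k * a * (g ^ k)⁻¹) * (g ^ i)⁻¹)
    calc _ = g ^ i * ((g ^ k * a * (g ^ k)⁻¹) * b) * (g ^ i)⁻¹ := by group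
      _ = g ^ i * (b * (g ^ k * a * (g ^ k)⁻¹)) * (g ^ i)⁻¹ := by rw [h3]
      _ = _ := by group
  have key2 : ∀ a ∈ K, ∀ b ∈ K, ∀ n m : ℕ, m ≤ n →
      Commute (g ^ n * a * (g ^ n)⁻¹) (PP g b m) := by
    intro a ha b hb n m
    induction m with
    | zero => intro _; exact Commute.one_right _
    | succ m ih =>
      intro hm
      exact (ih (by omega)).mul_right (key a ha b hb m n (by omega))
  have mem : ∀ a ∈ K, ∀ n, PP g a n ∈ H := by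
    intro a ha n
    induction n with
    | zero => exact H.one_mem
    | succ n ih =>
      exact H.mul_mem ih (H.mul_mem (H.mul_mem (H.pow_mem hg n) (hK ha)) (H.inv_mem (H.pow_mem hg n)))
  have mulP : ∀ a ∈ K, ∀ b ∈ K, ∀ n, PP g (a * b) n = PP g a n * PP g b n := by
    intro a ha b hb n
    induction n with
    | zero => simp [PP]
    | succ n ih =>
      show PP g (a * b) n * (g ^ n * (a * b) * (g ^ n)⁻¹) =
        (PP g a n * (g ^ n * a * (g ^ n)⁻¹)) * (PP g b n * (g ^ n * b * (g ^ n)⁻¹))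
      have hcm : (g ^ n * a * (g ^ n)⁻¹) * PP g b n = PP g b n * (g ^ n * a * (g ^ n)⁻¹) :=
        key2 a ha b hb n n le_rfl
      rw [ih]
      calc _ = PP g a n * (PP g b n * (g ^ n * a * (g ^ n)⁻¹)) * (g ^ n * b * (g ^ n)⁻¹) := by
            group
        _ = PP g a n * ((g ^ n * a * (g ^ n)⁻¹) * PP g b n) * (g ^ n * b * (g ^ n)⁻¹) := by
            rw [hcm]
        _ = _ := by group
  have val : ∀ a ∈ K, ∀ n, μ (PP g a n) = n * μ a := by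
    intro a ha n
    induction n with
    | zero => simp [PP, hqm_one h]
    | succ n ih =>
      show μ (PP g a n * (g ^ n * a * (g ^ n)⁻¹)) = _
      have hm : g ^ n * a * (g ^ n)⁻¹ ∈ H :=
        H.mul_mem (H.mul_mem (H.pow_mem hg n) (hK ha)) (H.inv_mem (H.pow_mem hg n))
      rw [hqm_comm h (mem a ha n) hm ((key2 a ha a ha n n le_rfl).symm), ih,
        hqm_conj h (hK ha) (H.pow_mem hg n)]
      push_cast; ring
  intro a ha b hb
  obtain ⟨D, hD⟩ := h.1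
  refine eq_of_bdd (C := D) fun n => ?_
  rw [mul_add, ← val (a * b) (K.mul_mem ha hb) n, ← val a ha n, ← val b hb n, mulP a ha b hb n,
    ← sub_sub]
  exact hD _ (mem a ha n) _ (mem b hb n)

theorem a3' {Γ : Type} [Group Γ] {H N : Subgroup Γ} {μ : Γ → ℝ} (h : HQMOn H μ) (hN : N ≤ H)
    (hn : ∀ a ∈ H, ∀ n ∈ N, a * n * a⁻¹ ∈ N) (h0 : ∀ n ∈ N, μ n = 0) {a n : Γ} (ha : a ∈ H)
    (hnn : n ∈ N) : μ (a * n) = μ a := by
  have key : ∀ k : ℕ, ∃ m ∈ N, (a * n) ^ k = a ^ k * m := by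
    intro k
    induction k with
    | zero => exact ⟨1, N.one_mem, by simp⟩
    | succ k ih =>
      obtain ⟨m, hm, e⟩ := ih
      refine ⟨(a⁻¹ * m * (a⁻¹)⁻¹) * n, N.mul_mem (hn a⁻¹ (H.inv_mem ha) m hm) hnn, ?_⟩
      rw [pow_succ, e, pow_succ]
      group
  obtain ⟨D, hD⟩ := h.1
  refine eq_of_bdd (C := D) fun k => ?_
  obtain ⟨m, hm, e⟩ := key k
  rw [← hqm_nat h (H.mul_mem ha (hN hnn)) k, ← hqm_nat h ha k, e]
  have := hD (a ^ k) (H.pow_mem ha k) m (hN hm)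
  rwa [h0 m hm, sub_zero] at this

theorem a3 : S_A3 := by
  intro Γ _ H N μ h hN hn h0 a ha n hnn
  refine ⟨a3' h hN hn h0 ha hnn, ?_⟩
  have e : n * a = a * (a⁻¹ * n * (a⁻¹)⁻¹) := by group
  rw [e]
  exact a3' h hN hn h0 ha (hn a⁻¹ (H.inv_mem ha) n hnn)

theorem a4 : S_A4 := by
  intro Γ _ H H₀ H₁ μ h hH0 hH1 n0 n1 dec h0 hom0 hom1
  let N : Subgroup Γ := H₀ ⊓ H₁
  have hN : N ≤ H := fun x hx => hH0 hx.1
  have hn : ∀ a ∈ H, ∀ n ∈ N, a * n * a⁻¹ ∈ N := fun a ha n hx => ⟨n0 a ha n hx.1, n1 a ha n hx.2⟩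
  have hv : ∀ n ∈ N, μ n = 0 := fun n hx => h0 n hx.1 hx.2
  -- commutators
  have comm : ∀ b ∈ H₀, ∀ c ∈ H₁, ∃ m ∈ N, c * b = b * c * m := by
    intro b hb c hc
    refine ⟨c⁻¹ * (b⁻¹ * c * b), ⟨?_, ?_⟩, by group⟩
    · have : c⁻¹ * (b⁻¹ * c * b) = (c⁻¹ * b⁻¹ * (c⁻¹)⁻¹) * b := by group
      rw [this]
      exact H₀.mul_mem (n0 _ (H.inv_mem (hH1 hc)) _ (H₀.inv_mem hb)) hb
    · have : c⁻¹ * (b⁻¹ * c * b) = c⁻¹ * (b⁻¹ * c * (b⁻¹)⁻¹) := by group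
      rw [this]
      exact H₁.mul_mem (H₁.inv_mem hc) (n1 _ (H.inv_mem (hH0 hb)) _ hc)
  have add : ∀ b ∈ H₀, ∀ c ∈ H₁, μ (b * c) = μ b + μ c := by
    intro b hb c hc
    have key : ∀ k : ℕ, ∃ m ∈ N, (b * c) ^ k = b ^ k * c ^ k * m := by
      intro k
      induction k with
      | zero => exact ⟨1, N.one_mem, by simp⟩
      | succ k ih =>
        obtain ⟨m, hm, e⟩ := ih
        obtain ⟨m', hm', e'⟩ := comm b hb (c ^ k) (H₁.pow_mem hc k)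
        have hbc : b * c ∈ H := H.mul_mem (hH0 hb) (hH1 hc)
        have hcH : c⁻¹ ∈ H := H.inv_mem (hH1 hc)
        refine ⟨(c⁻¹ * m' * (c⁻¹)⁻¹) * ((b * c)⁻¹ * m * ((b * c)⁻¹)⁻¹),
          N.mul_mem (hn _ hcH m' hm') (hn _ (H.inv_mem hbc) m hm), ?_⟩
        rw [pow_succ (b * c) k, e]
        calc b ^ k * c ^ k * m * (b * c)
            = b ^ k * (c ^ k * b) * c * ((b * c)⁻¹ * m * ((b * c)⁻¹)⁻¹) := by group
          _ = b ^ k * (b * c ^ k * m') * c * ((b * c)⁻¹ * m * ((b * c)⁻¹)⁻¹) := by rw [e']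
          _ = b ^ (k + 1) * c ^ (k + 1) * ((c⁻¹ * m' * (c⁻¹)⁻¹) *
                ((b * c)⁻¹ * m * ((b * c)⁻¹)⁻¹)) := by
              rw [pow_succ b, pow_succ c]; group
    obtain ⟨D, hD⟩ := h.1
    refine eq_of_bdd (C := D) fun k => ?_
    obtain ⟨m, hm, e⟩ := key k
    have hb' := hH0 hb
    have hc' := hH1 hc
    rw [mul_add, ← hqm_nat h (H.mul_mem hb' hc') k, ← hqm_nat h hb' k, ← hqm_nat h hc' k, e,
      a3' h hN hn hv (H.mul_mem (H.pow_mem hb' k) (H.pow_mem hc' k)) hm, ← sub_sub]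
    exact hD _ (H.pow_mem hb' k) _ (H.pow_mem hc' k)
  intro a ha a' ha'
  obtain ⟨b, hb, c, hc, rfl⟩ := dec a ha
  obtain ⟨b', hb', c', hc', rfl⟩ := dec a' ha'
  obtain ⟨m, hm, e⟩ := comm b' hb' c hc
  have hc'H : c'⁻¹ ∈ H := H.inv_mem (hH1 hc')
  have e2 : b * c * (b' * c') = (b * b') * (c * c') * (c'⁻¹ * m * (c'⁻¹)⁻¹) := by
    calc b * c * (b' * c') = b * (c * b') * c' := by group
      _ = b * (b' * c * m) * c' := by rw [e]
      _ = _ := by group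
  rw [e2, a3' h hN hn hv (H.mul_mem (hH0 (H₀.mul_mem hb hb')) (hH1 (H₁.mul_mem hc hc')))
    (hn _ hc'H m hm), add _ (H₀.mul_mem hb hb') _ (H₁.mul_mem hc hc'), hom0 b hb b' hb',
    hom1 c hc c' hc', add b hb c hc, add b' hb' c' hc']
  ring

end Pool.Agent.W371.DQ
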