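import Pool.Agent.W371.DQ.A

set_option autoImplicit false

open Pool.Agent.W133.DQ

namespace Pool.Agent.W371.DQ

abbrev G2 : Type := Matrix.GeneralLinearGroup (Fin 2) ℝ

/-- unit from the entries. -/
noncomputable def mk (a b c d : ℝ) (h : a * d - b * c ≠ 0) : G2 :=
  Matrix.GeneralLinearGroup.mkOfDetNeZero !![a, b; c, d] (by rw [Matrix.det_fin_two_of]; exact h)

theorem mk_val (a b c d : ℝ) (h : a * d - b * c ≠ 0) :
    ((mk a b c d h : G2) : Matrix (Fin 2) (Fin 2) ℝ) = !![a, b; c, d] := rfl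

theorem mem_pos (g : G2) : g ∈ Matrix.GLPos (Fin 2) ℝ ↔
    0 < (g : Matrix (Fin 2) (Fin 2) ℝ).det := by
  rw [Matrix.mem_glpos, Matrix.GeneralLinearGroup.val_det_apply]

noncomputable def U (s : ℝ) : G2 := mk 1 s 0 1 (by norm_num)
noncomputable def L (s : ℝ) : G2 := mk 1 0 s 1 (by norm_num)
noncomputable def dg : G2 := mk 2 0 0 (1/2) (by norm_num)

theorem agl : S_AGL := by
  rintro μ ⟨D, hD⟩ hn
  have m1 : μ 1 = 0 := by
    have := hn 1 0 (by simp)
    simpa using this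
  let H : Subgroup G2 := Matrix.GLPos (Fin 2) ℝ
  let ν : G2 → ℝ := fun g => μ (g : Matrix (Fin 2) (Fin 2) ℝ)
  have hinv : ∀ a ∈ H, ν a⁻¹ = - ν a := by
    intro a ha
    refine eq_of_bdd (C := D) fun n => ?_
    have ha' : 0 < (a : Matrix (Fin 2) (Fin 2) ℝ).det := (mem_pos a).1 ha
    have hi' : 0 < ((a⁻¹ : G2) : Matrix (Fin 2) (Fin 2) ℝ).det := (mem_pos _).1 (H.inv_mem ha)
    have e1 := hn _ n ha'
    have e2 := hn _ n hi'
    have hp : 0 < ((a : Matrix (Fin 2) (Fin 2) ℝ) ^ n).det := by rw [Matrix.det_pow]; positivity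
    have hp' : 0 < (((a⁻¹ : G2) : Matrix (Fin 2) (Fin 2) ℝ) ^ n).det := by
      rw [Matrix.det_pow]; positivity
    have h3 := hD _ _ hp hp'
    have e3 : (a : Matrix (Fin 2) (Fin 2) ℝ) ^ n * ((a⁻¹ : G2) : Matrix (Fin 2) (Fin 2) ℝ) ^ n = 1 := by
      rw [← Units.val_pow_eq_pow_val, ← Units.val_pow_eq_pow_val, ← Units.val_mul, inv_pow,
        mul_inv_cancel, Units.val_one]
    rw [e3, m1, e1, e2] at h3
    show |(n : ℝ) * μ ((a⁻¹ : G2) : Matrix (Fin 2) (Fin 2) ℝ) - n * (- μ (a : Matrix (Fin 2) (Fin 2) ℝ))| ≤ D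
    rw [abs_le] at *
    constructor <;> linarith [h3.1, h3.2]
  have hq : HQMOn H ν := by
    refine ⟨⟨D, fun a ha b hb => hD _ _ ((mem_pos a).1 ha) ((mem_pos b).1 hb)⟩, ?_⟩
    intro a ha n
    have hnat : ∀ b ∈ H, ∀ k : ℕ, ν (b ^ k) = k * ν b := by
      intro b hb k
      show μ ((b ^ k : G2) : Matrix (Fin 2) (Fin 2) ℝ) = _
      rw [Units.val_pow_eq_pow_val]
      exact hn _ k ((mem_pos b).1 hb)
    obtain ⟨k, rfl | rfl⟩ := n.eq_nat_or_neg
    · rw [zpow_natCast, hnat a ha k]; simp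
    · rw [zpow_neg, zpow_natCast, hinv _ (H.pow_mem ha k), hnat a ha k]; simp
  obtain ⟨hconj, hcomm, -, -, hbd⟩ := a1 G2 H ν hq
  have ext : ∀ g h : G2, (g : Matrix (Fin 2) (Fin 2) ℝ) = (h : Matrix (Fin 2) (Fin 2) ℝ) → g = h :=
    fun g h e => Units.ext e
  have hU : ∀ s, U s ∈ H := fun s => by
    rw [mem_pos]; show 0 < (!![1, s; 0, 1] : Matrix (Fin 2) (Fin 2) ℝ).det
    rw [Matrix.det_fin_two_of]; norm_num
  have hL : ∀ s, L s ∈ H := fun s => by
    rw [mem_pos]; show 0 < (!![1, 0; s, 1] : Matrix (Fin 2) (Fin 2) ℝ).det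
    rw [Matrix.det_fin_two_of]; norm_num
  have hdg : dg ∈ H := by
    rw [mem_pos]; show 0 < (!![2, 0; 0, 1/2] : Matrix (Fin 2) (Fin 2) ℝ).det
    rw [Matrix.det_fin_two_of]; norm_num
  have hU0 : ∀ s, ν (U s) = 0 := by
    intro s
    have e1 : dg * U s * dg⁻¹ = U s ^ 4 := by
      rw [mul_inv_eq_iff_eq_mul]
      apply ext
      simp only [Units.val_mul, Units.val_pow_eq_pow_val]
      show (!![2, 0; 0, 1/2] : Matrix (Fin 2) (Fin 2) ℝ) * !![1, s; 0, 1] =
        (!![1, s; 0, 1] : Matrix (Fin 2) (Fin 2) ℝ) ^ 4 * !![2, 0; 0, 1/2]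
      simp only [pow_succ, pow_zero, one_mul]
      ext i j; fin_cases i <;> fin_cases j <;> simp [Matrix.mul_apply, Fin.sum_univ_two] <;> ring
    have h1 := hconj _ (hU s) _ hdg
    rw [e1, hqm_nat hq (hU s) 4] at h1
    push_cast at h1
    linarith
  have hL0 : ∀ s, ν (L s) = 0 := by
    intro s
    have e1 : dg⁻¹ * L s * dg⁻¹⁻¹ = L s ^ 4 := by
      rw [mul_inv_eq_iff_eq_mul, inv_mul_eq_iff_eq_mul, ← mul_assoc, eq_comm,
        mul_inv_eq_iff_eq_mul, eq_comm]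
      apply ext
      simp only [Units.val_mul, Units.val_pow_eq_pow_val]
      show (!![1, 0; s, 1] : Matrix (Fin 2) (Fin 2) ℝ) * !![2, 0; 0, 1/2] =
        !![2, 0; 0, 1/2] * (!![1, 0; s, 1] : Matrix (Fin 2) (Fin 2) ℝ) ^ 4
      simp only [pow_succ, pow_zero, one_mul]
      ext i j; fin_cases i <;> fin_cases j <;> simp [Matrix.mul_apply, Fin.sum_univ_two] <;> ring
    have h1 := hconj _ (hL s) _ (H.inv_mem hdg)
    rw [e1, hqm_nat hq (hL s) 4] at h1
    push_cast at h1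
    linarith
  have tri : ∀ x ∈ H, ∀ y ∈ H, |ν (x * y)| ≤ |ν x| + |ν y| + D := by
    intro x hx y hy
    obtain ⟨h1, h2⟩ := abs_le.1 (hD _ _ ((mem_pos x).1 hx) ((mem_pos y).1 hy))
    have h3 := neg_abs_le (ν x)
    have h4 := le_abs_self (ν x)
    have h5 := neg_abs_le (ν y)
    have h6 := le_abs_self (ν y)
    have h7 : ν (x * y) = μ ((x : Matrix (Fin 2) (Fin 2) ℝ) * (y : Matrix (Fin 2) (Fin 2) ℝ)) := rfl
    rw [abs_le, h7]
    change -D ≤ _ - ν x - ν y at h1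
    change _ - ν x - ν y ≤ D at h2
    constructor <;> linarith
  let K : Subgroup G2 := (Matrix.GeneralLinearGroup.det : G2 →* ℝˣ).ker
  have memK : ∀ g : G2, g ∈ K ↔ (g : Matrix (Fin 2) (Fin 2) ℝ).det = 1 := by
    intro g
    rw [MonoidHom.mem_ker, Units.ext_iff, Matrix.GeneralLinearGroup.val_det_apply, Units.val_one]
  have hKH : K ≤ H := by
    intro g hg
    rw [mem_pos, (memK g).1 hg]; norm_num
  have bound1 : ∀ g ∈ K, (g : Matrix (Fin 2) (Fin 2) ℝ) 1 0 ≠ 0 → |ν g| ≤ 2 * D := by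
    intro g hg hc
    have hdet := (memK g).1 hg
    rw [Matrix.det_fin_two] at hdet
    set a := (g : Matrix (Fin 2) (Fin 2) ℝ) 0 0 with ha
    set b := (g : Matrix (Fin 2) (Fin 2) ℝ) 0 1 with hb
    set c := (g : Matrix (Fin 2) (Fin 2) ℝ) 1 0 with hc'
    set d := (g : Matrix (Fin 2) (Fin 2) ℝ) 1 1 with hd
    have e : g = U ((a - 1) / c) * L c * U ((d - 1) / c) := by
      apply ext
      simp only [Units.val_mul]
      show _ = (!![1, (a - 1) / c; 0, 1] : Matrix (Fin 2) (Fin 2) ℝ) * !![1, 0; c, 1] *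
        !![1, (d - 1) / c; 0, 1]
      ext i j
      fin_cases i <;> fin_cases j <;>
        simp only [Matrix.mul_apply, Fin.sum_univ_two, Fin.zero_eta, Fin.mk_one, Fin.isValue,
          Matrix.of_apply, Matrix.cons_val', Matrix.cons_val_zero, Matrix.cons_val_one,
          Matrix.cons_val_fin_one]
      · rw [← ha]; field_simp; ring
      · rw [← hb]; field_simp; linear_combination (-1 : ℝ) * hdet
      · rw [← hc']; field_simp; ring
      · rw [← hd]; field_simp; ring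
    rw [e]
    have t1 := tri _ (H.mul_mem (hU ((a - 1) / c)) (hL c)) _ (hU ((d - 1) / c))
    have t2 := tri _ (hU ((a - 1) / c)) _ (hL c)
    rw [hU0, hL0, abs_zero] at t2
    rw [hU0, abs_zero] at t1
    linarith
  have hD0 : 0 ≤ D := le_trans (abs_nonneg _) (hD 1 1 (by simp) (by simp))
  have bound : ∀ g ∈ K, |ν g| ≤ 3 * D := by
    intro g hg
    by_cases hc : (g : Matrix (Fin 2) (Fin 2) ℝ) 1 0 = 0
    · have hdet := (memK g).1 hg
      rw [Matrix.det_fin_two, hc, mul_zero, sub_zero] at hdet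
      have ha : (g : Matrix (Fin 2) (Fin 2) ℝ) 0 0 ≠ 0 := by
        intro h0; rw [h0, zero_mul] at hdet; exact zero_ne_one hdet
      have hL1 : L 1 ∈ K := by
        rw [memK]; show (!![1, 0; 1, 1] : Matrix (Fin 2) (Fin 2) ℝ).det = 1
        rw [Matrix.det_fin_two_of]; norm_num
      have hne : ((L 1 * g : G2) : Matrix (Fin 2) (Fin 2) ℝ) 1 0 ≠ 0 := by
        rw [Units.val_mul, Matrix.mul_apply, Fin.sum_univ_two]
        show (!![1, 0; 1, 1] : Matrix (Fin 2) (Fin 2) ℝ) 1 0 * _ +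
          (!![1, 0; 1, 1] : Matrix (Fin 2) (Fin 2) ℝ) 1 1 * _ ≠ 0
        rw [hc]; simpa using ha
      have h1 := bound1 _ (K.mul_mem hL1 hg) hne
      have e : g = (L 1)⁻¹ * (L 1 * g) := by group
      have h2 := tri _ (H.inv_mem (hL 1)) _ (H.mul_mem (hL 1) (hKH hg))
      rw [← e, hinv _ (hL 1), hL0, neg_zero, abs_zero] at h2
      linarith
    · have := bound1 g hg hc
      linarith
  have hK0 : ∀ g ∈ K, ν g = 0 := hbd K (3 * D) hKH bound
  -- scalars
  have hS : ∀ r : ℝ, r ≠ 0 → r * r - 0 * 0 ≠ 0 := fun r hr => by simpa using hr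
  have dec : ∀ (g : G2) (hg : g ∈ H), ∀ (r : ℝ) (hr : 0 < r), r ^ 2 = (g : Matrix (Fin 2) (Fin 2) ℝ).det →
      ν g = ν (mk r 0 0 r (hS r hr.ne')) := by
    intro g hg r hr hrd
    set S := mk r 0 0 r (hS r hr.ne') with hSd
    have hSH : S ∈ H := by
      rw [mem_pos]; show 0 < (!![r, 0; 0, r] : Matrix (Fin 2) (Fin 2) ℝ).det
      rw [Matrix.det_fin_two_of]; nlinarith
    have hScomm : ∀ x : G2, S * x = x * S := by
      intro x
      apply ext
      simp only [Units.val_mul]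
      show (!![r, 0; 0, r] : Matrix (Fin 2) (Fin 2) ℝ) * _ = _ * !![r, 0; 0, r]
      ext i j
      fin_cases i <;> fin_cases j <;> simp [Matrix.mul_apply, Fin.sum_univ_two, mul_comm]
    have hK' : S⁻¹ * g ∈ K := by
      rw [memK, Units.val_mul, Matrix.det_mul]
      have h1 : ((S⁻¹ : G2) : Matrix (Fin 2) (Fin 2) ℝ).det * (S : Matrix (Fin 2) (Fin 2) ℝ).det = 1 := by
        rw [← Matrix.det_mul, ← Units.val_mul, inv_mul_cancel, Units.val_one, Matrix.det_one]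
      have h2 : (S : Matrix (Fin 2) (Fin 2) ℝ).det = r ^ 2 := by
        show (!![r, 0; 0, r] : Matrix (Fin 2) (Fin 2) ℝ).det = _
        rw [Matrix.det_fin_two_of]; ring
      rw [← hrd, ← h2]; exact h1
    have e : g = S * (S⁻¹ * g) := by group
    have h3 := hcomm S hSH (S⁻¹ * g) (hKH hK') (hScomm _)
    rw [← e, hK0 _ hK', add_zero] at h3
    exact h3
  intro a b ha hb
  have hab : 0 < (a * b).det := by rw [Matrix.det_mul]; positivity
  set ga : G2 := Matrix.GeneralLinearGroup.mkOfDetNeZero a ha.ne' with hga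
  set gb : G2 := Matrix.GeneralLinearGroup.mkOfDetNeZero b hb.ne' with hgb
  have gaH : ga ∈ H := (mem_pos _).2 ha
  have gbH : gb ∈ H := (mem_pos _).2 hb
  have hra : 0 < Real.sqrt a.det := Real.sqrt_pos.2 ha
  have hrb : 0 < Real.sqrt b.det := Real.sqrt_pos.2 hb
  have e1 := dec ga gaH _ hra (Real.sq_sqrt ha.le)
  have e2 := dec gb gbH _ hrb (Real.sq_sqrt hb.le)
  have e3 := dec (ga * gb) (H.mul_mem gaH gbH) (Real.sqrt a.det * Real.sqrt b.det) (by positivity) (by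
    rw [mul_pow, Real.sq_sqrt ha.le, Real.sq_sqrt hb.le, Units.val_mul, Matrix.det_mul]; rfl)
  have e4 : mk (Real.sqrt a.det * Real.sqrt b.det) 0 0 (Real.sqrt a.det * Real.sqrt b.det)
      (hS _ (by positivity)) = mk _ 0 0 _ (hS _ hra.ne') * mk _ 0 0 _ (hS _ hrb.ne') := by
    apply ext
    rw [Units.val_mul, mk_val, mk_val, mk_val]
    ext i j
    fin_cases i <;> fin_cases j <;> simp [Matrix.mul_apply, Fin.sum_univ_two]
  have e5 : ν (mk _ 0 0 _ (hS _ hra.ne') * mk _ 0 0 _ (hS _ hrb.ne')) =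
      ν (mk _ 0 0 _ (hS _ hra.ne')) + ν (mk _ 0 0 _ (hS _ hrb.ne')) := by
    apply hcomm
    · rw [mem_pos, mk_val, Matrix.det_fin_two_of]; nlinarith
    · rw [mem_pos, mk_val, Matrix.det_fin_two_of]; nlinarith
    · apply ext
      rw [Units.val_mul, Units.val_mul, mk_val, mk_val]
      ext i j
      fin_cases i <;> fin_cases j <;> simp [Matrix.mul_apply, Fin.sum_univ_two, mul_comm]
  show ν (ga * gb) = ν ga + ν gb
  rw [e3, e1, e2, e4, e5]

end Pool.Agent.W371.DQ
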