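import Pool.Agent.W371.DQ.A

set_option autoImplicit false

open Pool.Agent.W133.DQ
open scoped ContDiff

namespace Pool.Agent.W371.DQ

/-- matrix of a linear map of the plane. -/
def Mt (A : P2 →L[ℝ] P2) : Matrix (Fin 2) (Fin 2) ℝ :=
  !![(A (1, 0)).1, (A (0, 1)).1; (A (1, 0)).2, (A (0, 1)).2]

theorem lin_apply (A : P2 →L[ℝ] P2) (p : P2) :
    A p = p.1 • A (1, 0) + p.2 • A (0, 1) := by
  rw [← A.map_smul, ← A.map_smul, ← A.map_add]
  congr 1
  ext <;> simp

theorem Mt_comp (A B : P2 →L[ℝ] P2) : Mt (A.comp B) = Mt A * Mt B := by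
  unfold Mt
  ext i j
  fin_cases i <;> fin_cases j <;>
    simp only [Matrix.mul_apply, Fin.sum_univ_two, Fin.zero_eta, Fin.mk_one, Fin.isValue,
      Matrix.of_apply, Matrix.cons_val', Matrix.cons_val_zero, Matrix.cons_val_one,
      Matrix.cons_val_fin_one, ContinuousLinearMap.comp_apply]
  · rw [lin_apply A (B (1, 0))]; simp; ring
  · rw [lin_apply A (B (0, 1))]; simp; ring
  · rw [lin_apply A (B (1, 0))]; simp; ring
  · rw [lin_apply A (B (0, 1))]; simp; ring

theorem Mt_id : Mt (ContinuousLinearMap.id ℝ P2) = 1 := by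
  unfold Mt
  ext i j
  fin_cases i <;> fin_cases j <;> simp

theorem Mt_inj {A B : P2 →L[ℝ] P2} (h : Mt A = Mt B) : A = B := by
  have h00 := congrFun (congrFun h 0) 0
  have h01 := congrFun (congrFun h 0) 1
  have h10 := congrFun (congrFun h 1) 0
  have h11 := congrFun (congrFun h 1) 1
  simp only [Mt, Matrix.of_apply, Matrix.cons_val', Matrix.cons_val_zero, Matrix.cons_val_one,
      Matrix.cons_val_fin_one, Fin.isValue] at h00 h01 h10 h11
  refine ContinuousLinearMap.ext fun p => ?_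
  rw [lin_apply A p, lin_apply B p, Prod.ext h00 h10, Prod.ext h01 h11]

/-- the derivative of a permutation. -/
noncomputable def dp (f : Equiv.Perm P2) (p : P2) : P2 →L[ℝ] P2 := fderiv ℝ (fun q => f q) p

theorem diffAt {f : Equiv.Perm P2} (hf : SmD f) (p : P2) : DifferentiableAt ℝ (fun q => f q) p :=
  (hf.1.differentiable (by simp)) p

theorem dp_mul {f g : Equiv.Perm P2} (hf : SmD f) (hg : SmD g) (p : P2) :
    dp (f * g) p = (dp f (g p)).comp (dp g p) := by
  have : (fun q => (f * g) q) = (fun q => f q) ∘ (fun q => g q) := rfl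
  unfold dp
  rw [this, fderiv_comp p (diffAt hf (g p)) (diffAt hg p)]

theorem dp_one (p : P2) : dp 1 p = ContinuousLinearMap.id ℝ P2 := by
  show fderiv ℝ (fun q => q) p = _
  exact fderiv_fun_id

theorem dp_det_ne {f : Equiv.Perm P2} (hf : SmD f) (p : P2) : (Mt (dp f p)).det ≠ 0 := by
  have h := dp_mul (smD_inv hf) hf p
  rw [inv_mul_cancel, dp_one] at h
  have h2 := congrArg (fun A => (Mt A).det) h
  simp only [Mt_comp, Matrix.det_mul, Mt_id, Matrix.det_one] at h2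
  intro h0
  rw [h0, mul_zero] at h2
  exact one_ne_zero h2

theorem dp_det_pos {f : Equiv.Perm P2} (hf : f ∈ DC) (p : P2) : 0 < (Mt (dp f p)).det := by
  obtain ⟨hs, R, hR⟩ := hf
  have hcont : Continuous (fun p => (Mt (dp f p)).det) := by
    have h1 : Continuous (fun p => dp f p) := hs.1.continuous_fderiv (by simp)
    have h2 : ∀ v : P2, Continuous (fun p => dp f p v) := fun v => h1.clm_apply continuous_const
    have : (fun p => (Mt (dp f p)).det) = fun p =>
        (dp f p (1, 0)).1 * (dp f p (0, 1)).2 - (dp f p (0, 1)).1 * (dp f p (1, 0)).2 := by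
      funext p
      unfold Mt
      rw [Matrix.det_fin_two_of]
    rw [this]
    exact ((h2 _).fst.mul (h2 _).snd).sub ((h2 _).fst.mul (h2 _).snd)
  -- value one far away
  set q : P2 := (|R| + 1, 0) with hq
  have hqn : R < ‖q‖ := by
    have h1 : ‖q.1‖ ≤ ‖q‖ := norm_fst_le q
    have h2 : ‖q.1‖ = |R| + 1 := by
      rw [hq, Real.norm_eq_abs]; exact abs_of_pos (by positivity)
    have h3 := le_abs_self R
    linarith
  have hqd : (Mt (dp f q)).det = 1 := by
    have : dp f q = ContinuousLinearMap.id ℝ P2 := by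
      unfold dp
      have he : (fun x => f x) =ᶠ[nhds q] (fun x => x) := by
        have : {x : P2 | R < ‖x‖} ∈ nhds q := (isOpen_lt continuous_const continuous_norm).mem_nhds hqn
        filter_upwards [this] with x hx using hR x hx
      rw [he.fderiv_eq]
      exact fderiv_fun_id
    rw [this, Mt_id, Matrix.det_one]
  by_contra hneg
  push Not at hneg
  have hiv : (0 : ℝ) ∈ Set.range (fun p => (Mt (dp f p)).det) := by
    have hc : IsPreconnected (Set.range (fun p => (Mt (dp f p)).det)) :=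
      isPreconnected_range hcont
    exact hc.Icc_subset (Set.mem_range_self p) (Set.mem_range_self q)
      ⟨hneg, by show (0 : ℝ) ≤ (Mt (dp f q)).det; rw [hqd]; exact zero_le_one⟩
  obtain ⟨x, hx⟩ := hiv
  exact dp_det_ne hs x hx

/-- elements tangent to the identity. -/
def KT : Subgroup (Equiv.Perm P2) where
  carrier := {f | f ∈ DC0 ∧ dp f 0 = ContinuousLinearMap.id ℝ P2}
  mul_mem' := by
    rintro f g ⟨hf, h1⟩ ⟨hg, h2⟩
    refine ⟨DC0.mul_mem hf hg, ?_⟩
    rw [dp_mul hf.1.1 hg.1.1, hg.2, h1, h2]; rfl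
  one_mem' := ⟨DC0.one_mem, dp_one 0⟩
  inv_mem' := by
    rintro f ⟨hf, h1⟩
    refine ⟨DC0.inv_mem hf, ?_⟩
    have h := dp_mul (smD_inv hf.1.1) hf.1.1 0
    rw [inv_mul_cancel, dp_one, hf.2, h1] at h
    exact h.symm

theorem efin (hK : S_K0) (hL : S_LIN) (hG : S_AGL) : S_EFIN := by
  intro ν hν hNP
  have k0 : ∀ f ∈ KT, ν f = 0 := fun f hf => hK ν hν hNP f hf.1 hf.2
  have knorm : ∀ a ∈ DC0, ∀ n ∈ KT, a * n * a⁻¹ ∈ KT := by
    intro a ha n hn
    refine ⟨DC0.mul_mem (DC0.mul_mem ha hn.1) (DC0.inv_mem ha), ?_⟩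
    have hai : a⁻¹ ∈ DC0 := DC0.inv_mem ha
    have h := dp_mul ha.1.1 hai.1.1 0
    rw [mul_inv_cancel, dp_one, hai.2] at h
    rw [dp_mul (smD_mul ha.1.1 hn.1.1.1) hai.1.1, dp_mul ha.1.1 hn.1.1.1, hai.2, hn.1.2, hn.2]
    exact h.symm
  have same : ∀ f ∈ DC0, ∀ g ∈ DC0, dp f 0 = dp g 0 → ν f = ν g := by
    intro f hf g hg h
    have hn : g⁻¹ * f ∈ KT := by
      refine ⟨DC0.mul_mem (DC0.inv_mem hg) hf, ?_⟩
      have h' := dp_mul (smD_inv hg.1.1) hg.1.1 0
      rw [inv_mul_cancel, dp_one, hg.2] at h'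
      rw [dp_mul (smD_inv hg.1.1) hf.1.1, hf.2, h, h']
    have h2 := (a3 (Equiv.Perm P2) DC0 KT ν hν (fun x hx => hx.1) knorm k0 g hg _ hn).1
    rw [← h2]; congr 1; group
  -- linear germs
  have lin : ∀ A : Matrix (Fin 2) (Fin 2) ℝ, 0 < A.det → ∃ M ∈ DC0, Mt (dp M 0) = A := by
    intro A hA
    rw [Matrix.det_fin_two] at hA
    obtain ⟨M, hM, ε, hε, h⟩ := hL (A 0 0) (A 0 1) (A 1 0) (A 1 1) hA
    refine ⟨M, hM, ?_⟩
    let B : P2 →L[ℝ] P2 :=
      ((A 0 0) • ContinuousLinearMap.fst ℝ ℝ ℝ + (A 0 1) • ContinuousLinearMap.snd ℝ ℝ ℝ).prod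
      ((A 1 0) • ContinuousLinearMap.fst ℝ ℝ ℝ + (A 1 1) • ContinuousLinearMap.snd ℝ ℝ ℝ)
    have e : dp M 0 = B := by
      unfold dp
      have he : (fun x => M x) =ᶠ[nhds (0 : P2)] (fun x => B x) := by
        filter_upwards [Metric.ball_mem_nhds (0 : P2) hε] with x hx
        rw [h x (by simpa using hx)]
        rfl
      rw [he.fderiv_eq]
      exact B.fderiv
    rw [e]
    ext i j
    fin_cases i <;> fin_cases j <;> simp [Mt, B]
  choose! M hM1 hM2 using lin
  let μ : Matrix (Fin 2) (Fin 2) ℝ → ℝ := fun A => ν (M A)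
  have val : ∀ f ∈ DC0, ν f = μ (Mt (dp f 0)) := by
    intro f hf
    have hd := dp_det_pos hf.1 0
    exact same f hf _ (hM1 _ hd) (Mt_inj (hM2 _ hd).symm)
  have mtmul : ∀ f ∈ DC0, ∀ g ∈ DC0, Mt (dp (f * g) 0) = Mt (dp f 0) * Mt (dp g 0) := by
    intro f hf g hg
    rw [dp_mul hf.1.1 hg.1.1, hg.2, Mt_comp]
  obtain ⟨D, hD⟩ := hν.1
  have hadd := hG μ ⟨D, fun a b ha hb => by
    have h1 := hD _ (hM1 a ha) _ (hM1 b hb)
    rw [val _ (DC0.mul_mem (hM1 a ha) (hM1 b hb)), mtmul _ (hM1 a ha) _ (hM1 b hb), hM2 a ha,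
      hM2 b hb] at h1
    exact h1⟩ (fun a n ha => by
    have h1 : ∀ k : ℕ, Mt (dp (M a ^ k) 0) = a ^ k := by
      intro k
      induction k with
      | zero => rw [pow_zero, pow_zero, dp_one, Mt_id]
      | succ k ih =>
        rw [pow_succ, pow_succ, mtmul _ (DC0.pow_mem (hM1 a ha) k) _ (hM1 a ha), ih, hM2 a ha]
    have h2 := hqm_nat hν (hM1 a ha) n
    rw [val _ (DC0.pow_mem (hM1 a ha) n), h1 n] at h2
    exact h2)
  intro f hf g hg
  rw [val _ (DC0.mul_mem hf hg), val f hf, val g hg, mtmul f hf g hg]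
  exact hadd _ _ (dp_det_pos hf.1 0) (dp_det_pos hg.1 0)

end Pool.Agent.W371.DQ
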