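import Pool.Agent.W371.DQ.A
import Pool.Agent.W133.DQ.StF

set_option autoImplicit false

open Pool.Agent.W133.DQ
open scoped ContDiff

namespace Pool.Agent.W371.DQ

theorem bp_eta (p : HH) (h : p.1.2 = 0) : p = bp p.1.1 := by
  apply Subtype.ext
  exact Prod.ext rfl h

/-- boundary values of an element of `BB`. -/
noncomputable def bv (f : Equiv.Perm HH) (x : ℝ) : ℝ := (f (bp x)).1.1

theorem f_bp {f : Equiv.Perm HH} (hf : f ∈ BB) (x : ℝ) : f (bp x) = bp (bv f x) :=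
  bp_eta _ ((hf.2.2.2.1 (bp x)).1 rfl)

theorem bp_inj {x y : ℝ} (h : bp x = bp y) : x = y := congrArg (fun p : HH => p.1.1) h

theorem finv_bp {f : Equiv.Perm HH} (hf : f ∈ BB) (x : ℝ) : bv f⁻¹ (bv f x) = x := by
  apply bp_inj
  rw [← f_bp (BB.inv_mem hf), ← f_bp hf]
  exact f.symm_apply_apply _

theorem bv_mul {f g : Equiv.Perm HH} (hf : f ∈ BB) (hg : g ∈ BB) (x : ℝ) :
    bv (f * g) x = bv f (bv g x) := by
  apply bp_inj
  rw [← f_bp (BB.mul_mem hf hg), ← f_bp hf, ← f_bp hg]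
  rfl

noncomputable def bX (f : Equiv.Perm HH) (hf : f ∈ BB) : Equiv.Perm ℝ where
  toFun := bv f
  invFun := bv f⁻¹
  left_inv := finv_bp hf
  right_inv := by
    have := finv_bp (BB.inv_mem hf)
    rw [inv_inv] at this
    exact this

theorem hT_bp (a x : ℝ) : hT a (bp x) = bp (x + a) := rfl

theorem bv_cont {f : Equiv.Perm HH} (hf : f ∈ BB) : ContDiff ℝ ∞ (fun x => bv f x) := by
  obtain ⟨F, hF, hF'⟩ := hf.1
  have : (fun x => bv f x) = fun x : ℝ => (F (x, 0)).1 := by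
    funext x
    unfold bv
    rw [hF' (bp x)]
    rfl
  rw [this]
  exact contDiff_fst.comp (hF.comp (contDiff_id.prodMk contDiff_const))

theorem bX_CD {f : Equiv.Perm HH} (hf : f ∈ BB) : CD (bX f hf) := by
  have hper : ∀ x, bv f (x + 1) = bv f x + 1 := by
    intro x
    have h := hf.2.2.1 (bp x)
    rw [hT_bp, f_bp hf, f_bp hf, hT_bp] at h
    exact bp_inj h
  refine ⟨⟨bv_cont hf, bv_cont (BB.inv_mem hf), ?_⟩, hper⟩
  rcases (bv_cont hf).continuous.strictMono_of_inj (bX f hf).injective with h | h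
  · exact h
  · exfalso
    have h1 : bv f (0 + 1) < bv f 0 := h (by norm_num)
    rw [hper] at h1
    linarith

/-- elements fixing the boundary pointwise. -/
def K1 : Subgroup (Equiv.Perm HH) where
  carrier := {f | f ∈ BB ∧ ∀ x, f (bp x) = bp x}
  mul_mem' := by
    rintro f g ⟨hf, h1⟩ ⟨hg, h2⟩
    exact ⟨BB.mul_mem hf hg, fun x => by rw [Equiv.Perm.mul_apply, h2, h1]⟩
  one_mem' := ⟨BB.one_mem, fun _ => rfl⟩
  inv_mem' := by
    rintro f ⟨hf, h1⟩
    exact ⟨BB.inv_mem hf, fun x => by rw [Equiv.Perm.inv_eq_iff_eq, h1]⟩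

theorem K1_norm : ∀ a ∈ BB, ∀ n ∈ K1, a * n * a⁻¹ ∈ K1 := by
  rintro a ha n ⟨hn, h⟩
  refine ⟨BB.mul_mem (BB.mul_mem ha hn) (BB.inv_mem ha), fun x => ?_⟩
  rw [Equiv.Perm.mul_apply, Equiv.Perm.mul_apply, f_bp (BB.inv_mem ha), h, ← f_bp (BB.inv_mem ha)]
  exact a.apply_symm_apply _

theorem ext_bp {M : Equiv.Perm HH} {X : ℝ → ℝ} {ε : ℝ} (hε : 0 < ε)
    (h : ∀ p : HH, -ε < p.1.2 → (M p : P2) = (X p.1.1, p.1.2)) (x : ℝ) : bv M x = X x := by
  unfold bv
  rw [h (bp x) (by show -ε < 0; linarith)]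
  rfl

theorem ffin (hK : S_FK1) (hE : S_EXTC) (hC : S_COMC) : S_FFIN := by
  intro ν hν h0
  obtain ⟨D, hD⟩ := hν.1
  have bound : ∀ f ∈ BB, |ν f| ≤ 2 * D := by
    intro f hf
    obtain ⟨A, B, m, hA, hB, hX⟩ := hC (bX f hf) (bX_CD hf)
    obtain ⟨MA, hMA, εA, hεA, hMA'⟩ := hE A hA
    obtain ⟨MB, hMB, εB, hεB, hMB'⟩ := hE B hB
    have hTCD : CD (Equiv.addRight (m : ℝ)) := by
      refine ⟨⟨?_, ?_, ?_⟩, ?_⟩
      · exact contDiff_id.add contDiff_const
      · have : (fun x => (Equiv.addRight (m : ℝ))⁻¹ x) = fun x => x + (-(m : ℝ)) := by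
          funext x
          rw [Equiv.Perm.inv_eq_iff_eq]
          simp
        rw [this]
        exact contDiff_id.add contDiff_const
      · intro x y hxy
        show x + m < y + m
        linarith
      · intro x
        show x + 1 + m = x + m + 1
        ring
    obtain ⟨T, hT, εT, hεT, hT'⟩ := hE _ hTCD
    have hT0 : T ∈ BB0 := ⟨hT, m, εT, hεT, fun p hp => hT' p hp⟩
    have bA : ∀ x, bv MA x = A x := ext_bp hεA hMA'
    have bB : ∀ x, bv MB x = B x := ext_bp hεB hMB'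
    have bT : ∀ x, bv T x = x + m := ext_bp (X := fun x => x + m) hεT hT'
    have bAi : ∀ x, bv MA⁻¹ x = A⁻¹ x := by
      intro x
      have h := finv_bp hMA (A⁻¹ x)
      rw [bA] at h
      rwa [show A (A⁻¹ x) = x from A.apply_symm_apply x] at h
    have bBi : ∀ x, bv MB⁻¹ x = B⁻¹ x := by
      intro x
      have h := finv_bp hMB (B⁻¹ x)
      rw [bB] at h
      rwa [show B (B⁻¹ x) = x from B.apply_symm_apply x] at h
    have hAi := BB.inv_mem hMA
    have hBi := BB.inv_mem hMB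
    have hc1 := BB.mul_mem (BB.mul_mem hMA hMB) hAi
    have hc : MA * MB * MA⁻¹ * MB⁻¹ ∈ BB := BB.mul_mem hc1 hBi
    have hg : T * (MA * MB * MA⁻¹ * MB⁻¹) ∈ BB := BB.mul_mem hT hc
    set g := T * (MA * MB * MA⁻¹ * MB⁻¹) with hgd
    have bg : ∀ x, bv g x = bv f x := by
      intro x
      rw [hgd, bv_mul hT hc, bv_mul hc1 hBi, bv_mul (BB.mul_mem hMA hMB) hAi, bv_mul hMA hMB,
        bT, bA, bB, bAi, bBi]
      exact (hX x).symm
    have hk : g⁻¹ * f ∈ K1 := by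
      refine ⟨BB.mul_mem (BB.inv_mem hg) hf, fun x => ?_⟩
      rw [Equiv.Perm.mul_apply, Equiv.Perm.inv_eq_iff_eq, f_bp hf, f_bp hg, bg]
    have e1 : f = g * (g⁻¹ * f) := by group
    have e2 : ν f = ν g := by
      rw [e1]
      exact (a3 (Equiv.Perm HH) BB K1 ν hν (fun x hx => hx.1) K1_norm
        (fun n hn => hK ν hν h0 n hn.1 hn.2) g hg _ hk).1
    have h1 := hD _ hT _ hc
    have h2 := hD _ hc1 _ hBi
    rw [hqm_conj hν hMB hMA, hqm_inv hν hMB] at h2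
    rw [h0 T hT0, ← hgd] at h1
    rw [e2]
    rw [abs_le] at *
    constructor <;> linarith [h1.1, h1.2, h2.1, h2.2]
  intro f hf
  exact hqm_bdd hν le_rfl bound hf

end Pool.Agent.W371.DQ
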