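import Pool.Agent.W133.DQ.StC

set_option autoImplicit false

open Pool.Agent.W133.DQ
open scoped ContDiff

namespace Pool.Agent.W371.DQ

theorem lin (hR : S_ROT) (hU : S_UT) : S_LIN := by
  intro a b c d hdet
  have hr2 : 0 < a ^ 2 + c ^ 2 := by
    by_contra h
    have ha : a = 0 := by nlinarith [sq_nonneg a, sq_nonneg c]
    have hc : c = 0 := by nlinarith [sq_nonneg a, sq_nonneg c]
    rw [ha, hc] at hdet
    linarith
  set r : ℝ := Real.sqrt (a ^ 2 + c ^ 2) with hr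
  have hrpos : 0 < r := Real.sqrt_pos.2 hr2
  have hrr : r ^ 2 = a ^ 2 + c ^ 2 := Real.sq_sqrt hr2.le
  set θ : ℝ := Complex.arg ⟨a, c⟩ with hθ
  have hnorm : ‖(⟨a, c⟩ : ℂ)‖ = r := by
    rw [Complex.norm_def, Complex.normSq_mk, hr]; congr 1; ring
  have hcos : r * Real.cos θ = a := by
    have := Complex.norm_mul_cos_arg (⟨a, c⟩ : ℂ)
    rwa [hnorm] at this
  have hsin : r * Real.sin θ = c := by
    have := Complex.norm_mul_sin_arg (⟨a, c⟩ : ℂ)
    rwa [hnorm] at this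
  set β : ℝ := Real.cos θ * b + Real.sin θ * d with hβ
  set γ : ℝ := - Real.sin θ * b + Real.cos θ * d with hγ
  have hγpos : 0 < γ := by
    have h1 : r * γ = a * d - b * c := by
      rw [hγ, ← hcos, ← hsin]; ring
    by_contra h
    push Not at h
    nlinarith
  set w : ℝ × ℝ × ℝ := (Real.log r, Real.log γ, β / r) with hw
  obtain ⟨l, l1, l2, -, l4, ⟨ε, hε, l5⟩, R', l6⟩ := hU (‖w‖ + 1) (by positivity)
  obtain ⟨-, -, -, r4, -, -, r7⟩ := hR
  have hlw : l w ∈ DC0 := by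
    refine ⟨⟨⟨?_, ?_⟩, R', fun p hp => l6 w p hp⟩, l4 w⟩
    · exact l1.comp (contDiff_const.prodMk contDiff_id : ContDiff ℝ ∞ (fun p : P2 => (w, p)))
    · exact l2.comp (contDiff_const.prodMk contDiff_id : ContDiff ℝ ∞ (fun p : P2 => (w, p)))
  refine ⟨rot θ * l w, DC0.mul_mem (r4 θ) hlw, min ε (1 / (2 * (r + |β| + γ))),
    lt_min hε (by positivity), fun p hp => ?_⟩
  have hp1 : ‖p‖ ≤ ε := (hp.trans_le (min_le_left _ _)).le
  have hp2 : ‖p‖ < 1 / (2 * (r + |β| + γ)) := hp.trans_le (min_le_right _ _)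
  have hp3 : ‖p‖ * (2 * (r + |β| + γ)) < 1 := by
    rwa [lt_div_iff₀ (by positivity)] at hp2
  have e1 : l w p = (r * p.1 + β * p.2, γ * p.2) := by
    rw [l5 w p (by linarith) hp1, hw]
    simp only [Real.exp_log hrpos, Real.exp_log hγpos]
    ext
    · simp only; field_simp
    · rfl
  have h1 : |p.1| ≤ ‖p‖ := norm_fst_le p
  have h2 : |p.2| ≤ ‖p‖ := norm_snd_le p
  have hn : ‖l w p‖ ≤ 1 / 2 := by
    rw [e1, Prod.norm_def, Real.norm_eq_abs, Real.norm_eq_abs]
    apply max_le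
    · calc |r * p.1 + β * p.2| ≤ |r * p.1| + |β * p.2| := abs_add_le _ _
        _ = r * |p.1| + |β| * |p.2| := by rw [abs_mul, abs_mul, abs_of_pos hrpos]
        _ ≤ r * ‖p‖ + |β| * ‖p‖ := by gcongr
        _ ≤ 1 / 2 := by nlinarith [norm_nonneg p]
    · rw [abs_mul, abs_of_pos hγpos]
      have : γ * |p.2| ≤ γ * ‖p‖ := by gcongr
      nlinarith [norm_nonneg p, abs_nonneg β]
  rw [Equiv.Perm.mul_apply, r7 θ _ hn, e1]
  have hcs := Real.sin_sq_add_cos_sq θ
  ext
  · simp only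
    have : Real.cos θ * β - Real.sin θ * γ = b := by rw [hβ, hγ]; linear_combination b * hcs
    linear_combination p.1 * hcos + p.2 * this
  · simp only
    have : Real.sin θ * β + Real.cos θ * γ = d := by rw [hβ, hγ]; linear_combination d * hcs
    linear_combination p.1 * hsin + p.2 * this

end Pool.Agent.W371.DQ
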