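import Pool.Agent.W371.DQ.Efin
import Pool.Agent.W133.DQ.StB

set_option autoImplicit false

open Pool.Agent.W133.DQ
open scoped ContDiff

namespace Pool.Agent.W371.DQ

theorem small (hI : S_LPINV) {L : Equiv.Perm P2 → ℝ} (hL : HomOn DC L) (h1 : ∀ P ∈ LP, L P = 0)
    (h2 : ∀ P ∈ VP, L P = 0) {h : Equiv.Perm P2} (hh : h ∈ DC) (hb : ∀ p, ‖h p - p‖ ≤ 1 / 4)
    (hd : ∀ p, ‖fderiv ℝ (fun q => h q - q) p‖ ≤ 1 / 4) : L h = 0 := by
  have hs : ContDiff ℝ ∞ (fun q : P2 => h q - q) := hh.1.1.sub contDiff_id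
  let w : ℝ × ℝ → ℝ := fun q => (h q - q).1
  have hw : ContDiff ℝ ∞ w := contDiff_fst.comp hs
  have hder : ∀ (x : ℝ) (e : ℝ), -1 < deriv (fun s => w (s, e)) x := by
    intro x e
    have hd0 : HasFDerivAt (fun q : P2 => h q - q) (fderiv ℝ (fun q : P2 => h q - q) (x, e)) (x, e) :=
      ((hs.differentiable (by simp)) (x, e)).hasFDerivAt
    have hline : HasDerivAt (fun s : ℝ => ((s, e) : P2)) (1, 0) x :=
      (hasDerivAt_id x).prodMk (hasDerivAt_const x e)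
    have h3 := hd0.comp_hasDerivAt x hline
    have h4 : HasDerivAt (fun s => w (s, e)) (fderiv ℝ (fun q : P2 => h q - q) (x, e) (1, 0)).1 x :=
      (ContinuousLinearMap.fst ℝ ℝ ℝ).hasFDerivAt.comp_hasDerivAt x h3
    rw [h4.deriv]
    have h5 : ‖fderiv ℝ (fun q : P2 => h q - q) (x, e) (1, 0)‖ ≤ 1 / 4 := by
      calc _ ≤ ‖fderiv ℝ (fun q : P2 => h q - q) (x, e)‖ * ‖((1, 0) : P2)‖ :=
            ContinuousLinearMap.le_opNorm _ _
        _ ≤ 1 / 4 * 1 := by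
            have : ‖((1, 0) : P2)‖ = 1 := by simp [Prod.norm_def]
            rw [this]
            have := hd (x, e)
            linarith
        _ = 1 / 4 := by norm_num
    have h6 := (norm_fst_le (fderiv ℝ (fun q : P2 => h q - q) (x, e) (1, 0))).trans h5
    rw [Real.norm_eq_abs, abs_le] at h6
    linarith [h6.1]
  obtain ⟨M, hM, hMi⟩ := hI ℝ w hw hder (fun e => ⟨1 / 4, fun x => by
    have := (norm_fst_le (h (x, e) - (x, e))).trans (hb (x, e))
    rwa [Real.norm_eq_abs] at this⟩)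
  have hM' : ∀ q : P2, M q = ((h q).1, q.2) := by
    intro q
    rw [hM q]
    ext
    · show q.1 + (h q - q).1 = (h q).1
      simp
    · rfl
  obtain ⟨hsm, R, hR⟩ := hh
  have hMLP : M ∈ LP := by
    refine ⟨⟨⟨?_, hMi⟩, R, fun p hp => ?_⟩, fun p => ?_⟩
    · have : (fun p => M p) = fun q : P2 => ((h q).1, q.2) := funext hM'
      rw [this]
      exact (contDiff_fst.comp hsm.1).prodMk contDiff_snd
    · rw [hM' p, hR p hp]
    · rw [hM' p]
  have hK : h * M⁻¹ ∈ VP := by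
    refine ⟨DC.mul_mem ⟨hsm, R, hR⟩ (DC.inv_mem hMLP.1), fun p => ?_⟩
    have e : M (M⁻¹ p) = p := M.apply_symm_apply p
    rw [hM' (M⁻¹ p)] at e
    have := congrArg Prod.fst e
    rw [Equiv.Perm.mul_apply]
    exact this
  have e : h = (h * M⁻¹) * M := by group
  rw [e, hL _ hK.1 _ hMLP.1, h1 _ hMLP, h2 _ hK, add_zero]

theorem hom_one {L : Equiv.Perm P2 → ℝ} (hL : HomOn DC L) : L 1 = 0 := by
  have := hL 1 DC.one_mem 1 DC.one_mem
  rw [mul_one] at this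
  linarith

theorem gen (hP : S_PATH) (hS : S_STEP) (hI : S_LPINV) : S_GEN := by
  intro L hL h1 h2 f hf
  obtain ⟨F, ⟨hF, -, -⟩, F0, F1⟩ := hP f hf
  obtain ⟨N, hN, hst⟩ := hS F hF (1 / 4) (by norm_num)
  obtain ⟨s1, s2, R, s3⟩ := hF
  have hmem : ∀ t, F t ∈ DC := by
    intro t
    refine ⟨⟨?_, ?_⟩, R, s3 t⟩
    · exact s1.comp (contDiff_const.prodMk contDiff_id : ContDiff ℝ ∞ (fun p : P2 => (t, p)))
    · exact s2.comp (contDiff_const.prodMk contDiff_id : ContDiff ℝ ∞ (fun p : P2 => (t, p)))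
  have key : ∀ i : ℕ, i ≤ N → L (F ((i : ℝ) / N)) = 0 := by
    intro i
    induction i with
    | zero => intro _; rw [Nat.cast_zero, zero_div, F0]; exact hom_one hL
    | succ i ih =>
      intro hi
      obtain ⟨hb, hd⟩ := hst i (by omega)
      have hm := DC.mul_mem (hmem ((i + 1 : ℝ) / N)) (DC.inv_mem (hmem ((i : ℝ) / N)))
      have h3 := small hI hL h1 h2 hm hb hd
      have e : F ((i + 1 : ℝ) / N) = (F ((i + 1 : ℝ) / N) * (F ((i : ℝ) / N))⁻¹) * F ((i : ℝ) / N) := by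
        group
      have h4 := hL _ hm _ (hmem ((i : ℝ) / N))
      rw [← e, h3, ih (by omega), add_zero] at h4
      rw [Nat.cast_succ]
      exact h4
  have := key N le_rfl
  rw [div_self (by exact_mod_cast (by omega : N ≠ 0)), F1] at this
  exact this

/-- `NP` is normal in `DC0`. -/
theorem np_norm : ∀ a ∈ DC0, ∀ n ∈ NP, a * n * a⁻¹ ∈ NP := by
  rintro a ha n ⟨hn, ε, hε, h⟩
  refine ⟨DC.mul_mem (DC.mul_mem ha.1 hn) (DC.inv_mem ha.1), ?_⟩
  have hai : a⁻¹ ∈ DC0 := DC0.inv_mem ha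
  have hc : Continuous (fun p => a⁻¹ p) := hai.1.1.1.continuous
  have h0 : a⁻¹ (0 : P2) = 0 := hai.2
  have hnb : (fun p => a⁻¹ p) ⁻¹' (Metric.ball 0 ε) ∈ nhds (0 : P2) := by
    apply hc.continuousAt.preimage_mem_nhds
    rw [h0]
    exact Metric.ball_mem_nhds _ hε
  obtain ⟨δ, hδ, hsub⟩ := Metric.mem_nhds_iff.1 hnb
  refine ⟨δ, hδ, fun p hp => ?_⟩
  have hp' : ‖a⁻¹ p‖ < ε := by
    have := hsub (by simpa using hp : p ∈ Metric.ball (0 : P2) δ)
    simpa using this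
  rw [Equiv.Perm.mul_apply, Equiv.Perm.mul_apply, h _ hp']
  exact a.apply_symm_apply p

theorem k0 (h0 : S_ST0) (hE : S_EXT0) (hT : S_TRDC) : S_K0 := by
  intro ν hν hNP
  obtain ⟨C, hC, hC1⟩ := hT.2 1 (1 / 2) (by norm_num)
  have hC0 : C ∈ DC0 := ⟨hC, by rw [hC1 0 (by simp)]; simp⟩
  have hdC : dp C 0 = (1 / 2 : ℝ) • ContinuousLinearMap.id ℝ P2 := by
    unfold dp
    have he : (fun x => C x) =ᶠ[nhds (0 : P2)] (fun x => ((1 / 2 : ℝ) • ContinuousLinearMap.id ℝ P2) x) := by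
      filter_upwards [Metric.ball_mem_nhds (0 : P2) one_pos] with x hx
      rw [hC1 x (by simpa using (Metric.mem_ball.1 hx).le)]
      rfl
    rw [he.fderiv_eq]
    exact ContinuousLinearMap.fderiv _
  have main : ∀ f ∈ DC0, dp f 0 = ContinuousLinearMap.id ℝ P2 → ν (C * f) = ν C := by
    intro f hf hdf
    have hg : C * f ∈ DC0 := DC0.mul_mem hC0 hf
    have hdg : fderiv ℝ (fun p => (C * f) p) 0 = (1 / 2 : ℝ) • ContinuousLinearMap.id ℝ P2 := by
      have := dp_mul hC.1 hf.1.1 0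
      rw [hf.2, hdC, hdf] at this
      exact this
    obtain ⟨η, h, hη, hh1, hh2, hh3, hh4⟩ := h0 (fun p => (C * f) p) hg.1.1.1 hg.2 hdg
    obtain ⟨M, hM, ε, hε, hMh⟩ := hE h η hη hh1 hh2 hh3
    have hMi : M⁻¹ ∈ DC0 := DC0.inv_mem hM
    -- near zero `M g M⁻¹ z = z / 2`
    have near : ∃ δ : ℝ, 0 < δ ∧ ∀ z : P2, ‖z‖ < δ → (M * (C * f) * M⁻¹) z = (1 / 2 : ℝ) • z := by
      have hc1 : Continuous (fun p => M⁻¹ p) := hMi.1.1.1.continuous
      have hc2 : Continuous (fun p => (C * f) (M⁻¹ p)) := hg.1.1.1.continuous.comp hc1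
      have n1 : (fun p => M⁻¹ p) ⁻¹' (Metric.ball 0 (min ε η)) ∈ nhds (0 : P2) := by
        apply hc1.continuousAt.preimage_mem_nhds
        rw [hMi.2]
        exact Metric.ball_mem_nhds _ (lt_min hε hη)
      have n2 : (fun p => (C * f) (M⁻¹ p)) ⁻¹' (Metric.ball 0 ε) ∈ nhds (0 : P2) := by
        apply hc2.continuousAt.preimage_mem_nhds
        show Metric.ball 0 ε ∈ nhds ((C * f) (M⁻¹ 0))
        rw [hMi.2, hg.2]
        exact Metric.ball_mem_nhds _ hε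
      obtain ⟨δ, hδ, hsub⟩ := Metric.mem_nhds_iff.1 (Filter.inter_mem n1 n2)
      refine ⟨δ, hδ, fun z hz => ?_⟩
      obtain ⟨hz1, hz2⟩ := hsub (by simpa using hz : z ∈ Metric.ball (0 : P2) δ)
      have hz1' : ‖M⁻¹ z‖ < min ε η := by simpa using hz1
      have hz2' : ‖(C * f) (M⁻¹ z)‖ < ε := by simpa using hz2
      have e1 : (M * (C * f) * M⁻¹) z = M ((C * f) (M⁻¹ z)) := rfl
      rw [e1, hMh _ hz2']
      rw [(hh4 (M⁻¹ z) (hz1'.trans_le (min_le_right _ _))).2,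
        ← hMh _ (hz1'.trans_le (min_le_left _ _))]
      congr 1
      exact M.apply_symm_apply z
    obtain ⟨δ, hδ, hnear⟩ := near
    have hn : M * (C * f) * M⁻¹ * C⁻¹ ∈ NP := by
      refine ⟨DC.mul_mem (DC.mul_mem (DC.mul_mem hM.1 hg.1) hMi.1) (DC.inv_mem hC),
        min (δ / 2) (1 / 2), by positivity, fun z hz => ?_⟩
      have hz1 : ‖z‖ < δ / 2 := hz.trans_le (min_le_left _ _)
      have hz2 : ‖z‖ < 1 / 2 := hz.trans_le (min_le_right _ _)
      have hn2 : ‖(2 : ℝ) • z‖ = 2 * ‖z‖ := by rw [norm_smul]; norm_num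
      have e1 : C⁻¹ z = (2 : ℝ) • z := by
        rw [Equiv.Perm.inv_eq_iff_eq, hC1 _ (by rw [hn2]; linarith), smul_smul]
        norm_num
      rw [Equiv.Perm.mul_apply, e1, hnear _ (by rw [hn2]; linarith), smul_smul]
      norm_num
    have e2 : M * (C * f) * M⁻¹ = (M * (C * f) * M⁻¹ * C⁻¹) * C := by group
    rw [← hqm_conj hν hg hM, e2]
    exact (a3 (Equiv.Perm P2) DC0 NP ν hν NP_le_DC0 np_norm hNP C hC0 _ hn).2
  intro f hf hdf
  obtain ⟨D, hD⟩ := hν.1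
  refine eq_of_bdd (C := D) fun k => ?_
  rw [mul_zero, sub_zero, ← hqm_nat hν hf k]
  have hk : (⟨hf, hdf⟩ : f ∈ KT) = ⟨hf, hdf⟩ := rfl
  have hfk : f ^ k ∈ KT := KT.pow_mem (show f ∈ KT from ⟨hf, hdf⟩) k
  have h1 := hD C hC0 (f ^ k) hfk.1
  rw [main _ hfk.1 hfk.2, sub_self, zero_sub, abs_neg] at h1
  exact h1

theorem det_eq (A : P2 →L[ℝ] P2) : A.det = (Mt A).det := by
  have h := LinearMap.det_toMatrix (Module.Basis.finTwoProd ℝ) (A : P2 →ₗ[ℝ] P2)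
  rw [ContinuousLinearMap.det, ← h]
  congr 1
  ext i j
  rw [LinearMap.toMatrix_apply, Module.Basis.coe_finTwoProd_repr]
  fin_cases i <;> fin_cases j <;> simp [Mt]

theorem loc0 (hL : S_LIN) (hE : S_EXT0) : S_LOC0 := by
  intro φ η hη hφ h0 hdet
  rw [det_eq] at hdet
  have hdet' := hdet
  unfold Mt at hdet'
  rw [Matrix.det_fin_two_of] at hdet'
  obtain ⟨M1, hM1, ε1, hε1, hM1l⟩ := hL _ _ _ _ hdet'
  set A := fderiv ℝ φ 0 with hA
  have hdM : dp M1 0 = A := by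
    unfold dp
    have he : (fun x => M1 x) =ᶠ[nhds (0 : P2)] (fun x => A x) := by
      filter_upwards [Metric.ball_mem_nhds (0 : P2) hε1] with x hx
      rw [hM1l x (by simpa using hx), lin_apply A x]
      ext
      · show _ = x.1 * (A (1, 0)).1 + x.2 * (A (0, 1)).1; ring
      · show _ = x.1 * (A (1, 0)).2 + x.2 * (A (0, 1)).2; ring
    rw [he.fderiv_eq]
    exact A.fderiv
  have hM1i : M1⁻¹ ∈ DC0 := DC0.inv_mem hM1
  have hball : Metric.ball (0 : P2) η ∈ nhds (0 : P2) := Metric.ball_mem_nhds _ hη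
  have hφd : DifferentiableAt ℝ φ 0 := (hφ.contDiffAt hball).differentiableAt (by simp)
  have hh : ContDiffOn ℝ ∞ (fun p => M1⁻¹ (φ p)) (Metric.ball 0 η) := hM1i.1.1.1.comp_contDiffOn hφ
  have hh0 : M1⁻¹ (φ 0) = 0 := by rw [h0]; exact hM1i.2
  have hhd : fderiv ℝ (fun p => M1⁻¹ (φ p)) 0 = ContinuousLinearMap.id ℝ P2 := by
    have e : (fun p => M1⁻¹ (φ p)) = (fun q => M1⁻¹ q) ∘ φ := rfl
    rw [e, fderiv_comp 0 (diffAt hM1i.1.1 _) hφd, h0]
    have h := dp_mul hM1i.1.1 hM1.1.1 0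
    rw [inv_mul_cancel, dp_one, hM1.2, hdM] at h
    exact h.symm
  obtain ⟨M2, hM2, ε, hε, hM2h⟩ := hE _ η hη hh hh0 hhd
  refine ⟨M1 * M2, DC0.mul_mem hM1 hM2, ε, hε, fun p hp => ?_⟩
  rw [Equiv.Perm.mul_apply, hM2h p hp]
  exact M1.apply_symm_apply _

end Pool.Agent.W371.DQ
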